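import Mathlib

/-!
# MP_2568f3_co : the degree-sequence condition fails for three subgraphs of `K_{5,5}`

The subgraphs have the degrees `(2,2,2,2,5)`, `(3,3,3,3,5)` and `(0,0,0,0,1)` on the side `V`.
-/

set_option autoImplicit false

open Finset

namespace Pool.Agent.Results.MP_2568f3_co.ThreeSubgraphs

/-- The sum of the `j` smallest terms of the sequence `c`, that is the sum of the first `j` terms
of its rearrangement in non-decreasing order. -/
def lowSum {k : ℕ} (c : Fin k → ℕ) (j : ℕ) : ℕ :=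
  (((List.ofFn c).insertionSort (· ≤ ·)).take j).sum

/-- The number of edges of `F` at the vertex `v` of the second side `V` of `K_{n,n}`; a subgraph of
`K_{n,n}` is a set of pairs (vertex of `U`, vertex of `V`). -/
def deg {n : ℕ} (F : Finset (Fin n × Fin n)) (v : Fin n) : ℕ := (F.filter fun e => e.2 = v).card

/-- The hypothesis: `r₁ + ⋯ + r_j > j(j-1)n` for the sorted sequence of the numbers of edges. -/
def Hyp {k n : ℕ} (F : Fin k → Finset (Fin n × Fin n)) : Prop :=
  ∀ j, 1 ≤ j → j ≤ k → j * (j - 1) * n < lowSum (fun i => (F i).card) j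

/-- The conclusion: there are distinct vertices `u₁, …, u_k` of `V` such that the sorted sequence
of the degrees `b_i = deg_{F_i}(u_i)` satisfies `b₁ + ⋯ + b_j > j(j-1)`. -/
def Concl {k n : ℕ} (F : Fin k → Finset (Fin n × Fin n)) : Prop :=
  ∃ u : Fin k → Fin n, Function.Injective u ∧
    ∀ j, 1 ≤ j → j ≤ k → j * (j - 1) < lowSum (fun i => deg (F i) (u i)) j

/-- The three subgraphs of `K_{5,5}`. -/
def F : Fin 3 → Finset (Fin 5 × Fin 5) :=
  ![univ.filter fun e => e.1.1 < ![2, 2, 2, 2, 5] e.2,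
    univ.filter fun e => e.1.1 < ![3, 3, 3, 3, 5] e.2,
    univ.filter fun e => e.1.1 < ![0, 0, 0, 0, 1] e.2]

theorem deg_F : ∀ i v, deg (F i) v =
    ![![2, 2, 2, 2, 5], ![3, 3, 3, 3, 5], ![0, 0, 0, 0, 1]] i v := by
  decide +kernel

theorem card_F : (fun i => (F i).card) = ![13, 17, 1] := by decide +kernel

theorem hyp_F : Hyp F := by
  intro j h1 h2
  rw [card_F]
  interval_cases j <;> decide

theorem not_concl_aux : ∀ a b c : Fin 5, a ≠ b → a ≠ c → b ≠ c →
    ¬ ((0 < lowSum ![deg (F 0) a, deg (F 1) b, deg (F 2) c] 1) ∧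
      (6 < lowSum ![deg (F 0) a, deg (F 1) b, deg (F 2) c] 3)) := by
  simp only [deg_F]
  decide +kernel

theorem not_concl : ¬ Concl F := by
  rintro ⟨u, hu, h⟩
  have e : (fun i => deg (F i) (u i)) = ![deg (F 0) (u 0), deg (F 1) (u 1), deg (F 2) (u 2)] := by
    funext i
    fin_cases i <;> rfl
  rw [e] at h
  refine not_concl_aux (u 0) (u 1) (u 2) (fun h' => absurd (hu h') (by decide))
    (fun h' => absurd (hu h') (by decide)) (fun h' => absurd (hu h') (by decide)) ⟨?_, ?_⟩
  · exact h 1 le_rfl (by norm_num)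
  · exact h 3 (by norm_num) le_rfl

/-- **MP_2568f3_co, Q1 (disproof).** There are three subgraphs of `K_{5,5}` that satisfy the
hypothesis but not the conclusion. -/
theorem result : (∃ F : Fin 3 → Finset (Fin 5 × Fin 5), Hyp F ∧ ¬ Concl F) ∧
    ¬ ∀ (k n : ℕ) (F : Fin k → Finset (Fin n × Fin n)), 1 ≤ k → 1 ≤ n → Hyp F → Concl F :=
  ⟨⟨F, hyp_F, not_concl⟩, fun h => not_concl (h 3 5 F (by norm_num) (by norm_num) hyp_F)⟩

end Pool.Agent.Results.MP_2568f3_co.ThreeSubgraphs
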